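import Pool.Agent.helper60.XP.SpecT

/-!
# Project xp: CHX (natural charts at a regular point); compare helper11/V3/CHT.lean
-/

set_option autoImplicit false

open Complex Metric Set Filter Topology MeasureTheory
open V3S (UF)
open XP

noncomputable section

namespace XPT

theorem CHX_closed (D : ℕ → Dat) : IsClosed (Pin D) := by
  rw [← isOpen_compl_iff, Metric.isOpen_iff]
  intro x hx
  have hx' : ∃ ε > (0 : ℝ), ¬ ∀ᶠ m in UF, ∃ l : ZMod (D m).k, ‖(D m).p l - x‖ < ε := by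
    by_contra hc
    push Not at hc
    exact hx (fun ε hε => hc ε hε)
  obtain ⟨ε, hε, hn⟩ := hx'
  refine ⟨ε / 2, by positivity, fun y hy hyP => hn ?_⟩
  filter_upwards [hyP (ε / 2) (by positivity)] with m hm
  obtain ⟨l, hl⟩ := hm
  refine ⟨l, ?_⟩
  rw [mem_ball, dist_eq_norm] at hy
  have h1 : (D m).p l - x = ((D m).p l - y) + (y - x) := by ring
  rw [h1]
  refine (norm_add_le _ _).trans_lt ?_
  linarith

theorem CHX_diffB (n : ℕ) (C A : ℝ) (D : Dat) (hG : D.Good n C A) (x : ℂ) (hx : D.zz x ∉ D.PP) :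
    DifferentiableAt ℂ D.B x := by
  have h1 : DifferentiableAt ℂ D.H0 (D.zz x) := by
    have h2 := hG.eng.ad
    exact h2.dif.differentiableAt (h2.fin.isClosed.isOpen_compl.mem_nhds hx)
  have h3 : DifferentiableAt ℂ D.zz x := by
    unfold Dat.zz
    exact ((differentiableAt_id).const_mul D.sg).const_add (D.b 0)
  have h4 : D.B = fun y => D.sg ^ 2 * ((D.s : ℂ) * D.H0 (D.zz y)) := rfl
  rw [h4]
  exact ((h1.comp x h3).const_mul (D.s : ℂ)).const_mul (D.sg ^ 2)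

theorem CHX (hNCH : V3S.NCH_stmt) (hNPC : NPC_stmt) : CHX_stmt := by
  intro n C D hD hL x₀ hx ρ₀ hρ₀
  obtain ⟨hxP, hx0⟩ := hx
  have hcl := CHX_closed D
  have hdiff := hL.diff
  have hconv := hL.conv
  have hop : IsOpen (Pin D)ᶜ := hcl.isOpen_compl
  set β : ℝ := ‖Bin D x₀‖ with hβ
  have hβ0 : 0 < β := norm_pos_iff.2 hx0
  obtain ⟨δ', hδ', hδP⟩ := Metric.isOpen_iff.1 hop x₀ hxP
  have hcont : ContinuousAt (Bin D) x₀ := (hdiff.differentiableAt (hop.mem_nhds hxP)).continuousAt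
  obtain ⟨δ, hδ, hδB⟩ := Metric.continuousAt_iff.1 hcont (β / 200) (by positivity)
  obtain ⟨ρ, hρ, hρδ, hρδ', hρr⟩ : ∃ ρ : ℝ, 0 < ρ ∧ ρ < δ ∧ ρ < δ' ∧ ρ < ρ₀ := by
    refine ⟨min δ (min δ' ρ₀) / 4, by positivity, ?_, ?_, ?_⟩
    · have := min_le_left δ (min δ' ρ₀); linarith
    · have := (min_le_right δ (min δ' ρ₀)).trans (min_le_left δ' ρ₀); linarith
    · have := (min_le_right δ (min δ' ρ₀)).trans (min_le_right δ' ρ₀); linarith
  have hK : IsCompact (closedBall x₀ ρ) := isCompact_closedBall x₀ _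
  have hKP : closedBall x₀ ρ ⊆ (Pin D)ᶜ := fun z hz => hδP (by
    rw [mem_ball]; exact lt_of_le_of_lt (mem_closedBall.1 hz) hρδ')
  have hu := Metric.tendstoUniformlyOn_iff.1 (hconv _ hK hKP) (β / 200) (by positivity)
  have hnp := hNPC n C D hD _ hK hKP
  -- constants
  set s : ℝ := Real.sqrt (β / 2) with hs
  have hs0 : 0 < s := Real.sqrt_pos.2 (by positivity)
  set r : ℝ := 9 * ρ * s / 20 with hr
  have hr0 : 0 < r := by positivity
  refine ⟨r, hr0, 1 + 2 * β, by positivity, ?_⟩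
  obtain ⟨A, -, hgood⟩ := hD.good
  filter_upwards [hu, hnp] with m hm hmP
  have hG := hgood m
  have hR : 0 < (D m).R 0 := hG.Rpos 0
  have hsg : (D m).sg ≠ 0 := by
    unfold Dat.sg
    exact_mod_cast hR.ne'
  have hxz : ∀ x, (D m).xx ((D m).zz x) = x := by
    intro x
    unfold Dat.xx Dat.zz
    rw [add_sub_cancel_left, mul_div_cancel_left₀ _ hsg]
  have hnear : ∀ z ∈ ball x₀ ρ, ‖(D m).B z - Bin D x₀‖ ≤ β / 100 := by
    intro z hz
    have h1 := hm z (ball_subset_closedBall hz)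
    have h2 := hδB (x := z) (by rw [mem_ball] at hz; linarith)
    rw [dist_eq_norm] at h1 h2
    have h3 : (D m).B z - Bin D x₀ = -(Bin D z - (D m).B z) + (Bin D z - Bin D x₀) := by ring
    rw [h3]
    refine (norm_add_le _ _).trans ?_
    rw [norm_neg]
    linarith
  have hyn : ‖(D m).B x₀ - Bin D x₀‖ ≤ β / 100 := hnear x₀ (mem_ball_self hρ)
  have hyl : 99 / 100 * β ≤ ‖(D m).B x₀‖ := by
    have h1 : β ≤ ‖(D m).B x₀‖ + ‖(D m).B x₀ - Bin D x₀‖ := by
      have h2 : Bin D x₀ = (D m).B x₀ - ((D m).B x₀ - Bin D x₀) := by ring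
      calc β = ‖(D m).B x₀ - ((D m).B x₀ - Bin D x₀)‖ := by rw [← h2]
        _ ≤ _ := norm_sub_le _ _
    linarith
  have hyu : ‖(D m).B x₀‖ ≤ 101 / 100 * β := by
    have h1 : ‖(D m).B x₀‖ ≤ ‖(D m).B x₀ - Bin D x₀‖ + β := by
      have h2 : (D m).B x₀ = ((D m).B x₀ - Bin D x₀) + Bin D x₀ := by ring
      calc ‖(D m).B x₀‖ = ‖((D m).B x₀ - Bin D x₀) + Bin D x₀‖ := by rw [← h2]
        _ ≤ _ := norm_add_le _ _
    linarith
  have hy0 : (D m).B x₀ ≠ 0 := by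
    intro h0
    rw [h0, norm_zero] at hyl
    linarith
  have hypos : 0 < ‖(D m).B x₀‖ := norm_pos_iff.2 hy0
  have hBd : DifferentiableOn ℂ (D m).B (ball x₀ ρ) := fun z hz =>
    (CHX_diffB n C (A m) (D m) hG z (hmP z (ball_subset_closedBall hz))).differentiableWithinAt
  obtain ⟨χ, hχd, hχ0, hχ⟩ := hNCH (D m).B x₀ ρ hρ hBd hy0 (by
    intro z hz
    have h1 := hnear z hz
    have h2 : (D m).B z / (D m).B x₀ - 1 = ((D m).B z - (D m).B x₀) / (D m).B x₀ := by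
      field_simp
    rw [h2, norm_div, div_le_iff₀ hypos]
    have h3 : (D m).B z - (D m).B x₀ = ((D m).B z - Bin D x₀) - ((D m).B x₀ - Bin D x₀) := by
      ring
    rw [h3]
    have h4 := norm_sub_le ((D m).B z - Bin D x₀) ((D m).B x₀ - Bin D x₀)
    linarith)
  -- the radius
  have hsle : s ≤ Real.sqrt ‖(D m).B x₀‖ := Real.sqrt_le_sqrt (by linarith)
  have hrad : 2 * r ≤ 9 * ρ * Real.sqrt ‖(D m).B x₀‖ / 10 := by
    have : 9 * ρ * s ≤ 9 * ρ * Real.sqrt ‖(D m).B x₀‖ :=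
      mul_le_mul_of_nonneg_left hsle (by positivity)
    rw [hr]
    linarith
  have hbs : ball (0 : ℂ) (2 * r) ⊆ ball 0 (9 * ρ * Real.sqrt ‖(D m).B x₀‖ / 10) :=
    ball_subset_ball hrad
  have h0m : (0 : ℂ) ∈ ball (0 : ℂ) (2 * r) := mem_ball_self (by positivity)
  have hder : ∀ w ∈ ball (0 : ℂ) (2 * r), HasDerivAt (fun w => (D m).zz (χ w))
      ((D m).sg * deriv χ w) w := by
    intro w hw
    have h1 : HasDerivAt χ (deriv χ w) w :=
      (hχd.differentiableAt (isOpen_ball.mem_nhds (hbs hw))).hasDerivAt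
    have h2 := (h1.const_mul (D m).sg).const_add ((D m).b 0)
    exact h2
  have hder' : ∀ w ∈ ball (0 : ℂ) (2 * r), deriv (fun w => (D m).zz (χ w)) w =
      (D m).sg * deriv χ w := fun w hw => (hder w hw).deriv
  have hn0 : ‖deriv χ 0‖ ^ 2 * ‖(D m).B x₀‖ = 1 := by
    have h1 := (hχ 0 (hbs h0m)).2.1
    rw [hχ0] at h1
    have h2 := congrArg norm h1
    rw [norm_mul, norm_pow, norm_one] at h2
    exact h2
  refine ⟨fun w => (D m).zz (χ w), ⟨?_, ?_, ?_⟩, ?_, ?_, ?_, ?_⟩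
  · intro w hw
    exact (hder w hw).differentiableAt.differentiableWithinAt
  · intro w hw
    exact hmP _ (ball_subset_closedBall (hχ w (hbs hw)).1)
  · intro w hw
    rw [hder' w hw]
    have h1 := (hχ w (hbs hw)).2.1
    unfold Dat.B at h1
    rw [mul_pow, ← h1]
    ring
  · simp only [hχ0]
  · intro w hw
    rw [hder' w hw, hder' 0 h0m, ← mul_sub, norm_mul, norm_mul]
    have h1 := (hχ w (hbs hw)).2.2
    calc ‖(D m).sg‖ * ‖deriv χ w - deriv χ 0‖ ≤ ‖(D m).sg‖ * (‖deriv χ 0‖ / 10) :=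
          mul_le_mul_of_nonneg_left h1 (norm_nonneg _)
      _ = ‖(D m).sg‖ * ‖deriv χ 0‖ / 10 := by ring
  · intro w hw
    show (D m).xx ((D m).zz (χ w)) ∈ ball x₀ ρ₀
    rw [hxz]
    exact ball_subset_ball hρr.le (hχ w (hbs hw)).1
  · rw [hder' 0 h0m, norm_mul]
    have hd0 : 0 ≤ ‖deriv χ 0‖ := norm_nonneg _
    have h2 : 1 ≤ ‖deriv χ 0‖ ^ 2 * (2 * β) := by
      rw [← hn0]
      exact mul_le_mul_of_nonneg_left (by linarith) (by positivity)
    have h4 : 1 ≤ ‖deriv χ 0‖ ^ 2 * (1 + 2 * β) :=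
      h2.trans (mul_le_mul_of_nonneg_left (by linarith) (by positivity))
    have h5 : 1 ≤ (1 + 2 * β) * ‖deriv χ 0‖ := by
      by_contra hc
      push Not at hc
      have h6 : ‖deriv χ 0‖ < 1 := by nlinarith
      nlinarith
    have h7 : 0 ≤ ‖(D m).sg‖ := norm_nonneg _
    calc ‖(D m).sg‖ = ‖(D m).sg‖ * 1 := by ring
      _ ≤ ‖(D m).sg‖ * ((1 + 2 * β) * ‖deriv χ 0‖) := mul_le_mul_of_nonneg_left h5 h7
      _ = (1 + 2 * β) * (‖(D m).sg‖ * ‖deriv χ 0‖) := by ring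

end XPT
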