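import Pool.Agent.helper60.XP.SpecD

/-!
# Project xp: DIT (iterates along the cycle)
-/

set_option autoImplicit false

open Complex Metric Set Filter Topology MeasureTheory

noncomputable section

namespace XPD

theorem DIT_prod (k : ℕ) [NeZero k] (h : ZMod k → ℂ) :
    ∏ i ∈ Finset.range k, h (i : ZMod k) = ∏ i : ZMod k, h i := by
  refine Finset.prod_bij (fun i _ => (i : ZMod k)) (fun _ _ => Finset.mem_univ _) ?_ ?_ ?_
  · intro i hi j hj hij
    rw [Finset.mem_range] at hi hj
    rw [ZMod.natCast_eq_natCast_iff'] at hij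
    rwa [Nat.mod_eq_of_lt hi, Nat.mod_eq_of_lt hj] at hij
  · intro z _
    exact ⟨z.val, Finset.mem_range.2 (ZMod.val_lt z), ZMod.natCast_zmod_val z⟩
  · intro i _
    rfl

theorem DIT_it {k : ℕ} [NeZero k] (f : Polynomial ℂ) (b : ZMod k → ℂ) (hc : PPS.IsCyc f b)
    (l : ZMod k) (j : ℕ) : itf f j (b l) = b (l + j) := by
  induction j with
  | zero => simp [itf]
  | succ j ih =>
    unfold itf at ih ⊢
    rw [Function.iterate_succ_apply', ih, hc.step]
    congr 1
    push_cast
    ring

theorem DIT_diff (f : Polynomial ℂ) (j : ℕ) : Differentiable ℂ (itf f j) :=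
  f.differentiable.iterate j

theorem DIT_der {k : ℕ} [NeZero k] (f : Polynomial ℂ) (b : ZMod k → ℂ) (hc : PPS.IsCyc f b)
    (l : ZMod k) (j : ℕ) :
    deriv (itf f j) (b l) = ∏ i ∈ Finset.range j, PPS.fd f (b (l + i)) := by
  induction j with
  | zero =>
    rw [Finset.prod_range_zero]
    exact deriv_id _
  | succ j ih =>
    rw [Finset.prod_range_succ, mul_comm]
    have h0 : itf f (j + 1) = (fun z => f.eval z) ∘ itf f j := by
      unfold itf
      exact Function.iterate_succ' _ _
    have h1 : deriv ((fun z => f.eval z) ∘ itf f j) (b l) =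
        deriv (fun z => f.eval z) (itf f j (b l)) * deriv (itf f j) (b l) :=
      deriv_comp _ f.differentiable.differentiableAt (DIT_diff f j).differentiableAt
    rw [h0, h1, ih, DIT_it f b hc]
    congr 1
    exact Polynomial.deriv f

theorem DIT_add (f : Polynomial ℂ) (i j : ℕ) (z : ℂ) :
    itf f (i + j) z = itf f i (itf f j z) := by
  unfold itf
  exact Function.iterate_add_apply _ _ _ _

theorem DIT_pol (f : Polynomial ℂ) (j : ℕ) :
    ∃ Q : Polynomial ℂ, Q.natDegree = f.natDegree ^ j ∧ ∀ z, itf f j z = Q.eval z := by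
  induction j with
  | zero =>
    refine ⟨Polynomial.X, ?_, ?_⟩
    · simp
    · intro z
      simp [itf]
  | succ j ih =>
    obtain ⟨Q, hQ, hQe⟩ := ih
    refine ⟨f.comp Q, ?_, ?_⟩
    · rw [Polynomial.natDegree_comp, hQ, pow_succ, mul_comm]
    · intro z
      rw [Polynomial.eval_comp, ← hQe z]
      unfold itf
      exact Function.iterate_succ_apply' _ _ _

theorem DIT : DIT_stmt := by
  intro k _ f b hc
  have hk : ∀ i, itf f k (b i) = b i := by
    intro i
    rw [DIT_it f b hc]
    congr 1
    simp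
  refine ⟨fun j i => DIT_it f b hc i j, hk, DIT_diff f, DIT_add f, ?_, ?_, ?_, DIT_pol f⟩
  · intro i j z
    have h1 : itf f (i + j) = itf f i ∘ itf f j := by
      funext y
      exact DIT_add f i j y
    rw [h1]
    exact deriv_comp _ (DIT_diff f i).differentiableAt (DIT_diff f j).differentiableAt
  · intro i
    rw [DIT_der f b hc]
    unfold PPS.rho
    rw [DIT_prod k (fun l => PPS.fd f (b (i + l)))]
    exact Fintype.prod_equiv (Equiv.addLeft i) _ _ (fun l => rfl)
  · intro j i
    rw [DIT_der f b hc]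
    exact Finset.prod_ne_zero_iff.2 (fun l _ => hc.ne0 _)

end XPD
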