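import Pool.Agent.helper60.XP.SpecE

/-!
# Project xp: FPP (the phase near infinity, degree `d ≥ 0`); compare helper46/V3/FPH.lean
-/

set_option autoImplicit false

open Complex Metric Set Filter Topology MeasureTheory
open V3 (En ZL)

noncomputable section

namespace XPE

theorem FPP_phase (u : ℂ) (hu : ‖u - 1‖ ≤ 1 / 2) :
    1 / 2 ≤ ‖u‖ ∧ ‖((‖u‖ : ℝ) : ℂ) / u - 1‖ ≤ 4 * ‖u - 1‖ := by
  have h1 : (1 : ℝ) / 2 ≤ ‖u‖ := by
    have h2 : ‖(1 : ℂ)‖ ≤ ‖u‖ + ‖u - 1‖ := by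
      have h3 : (1 : ℂ) = u - (u - 1) := by ring
      calc ‖(1 : ℂ)‖ = ‖u - (u - 1)‖ := by rw [← h3]
        _ ≤ ‖u‖ + ‖u - 1‖ := norm_sub_le _ _
    rw [norm_one] at h2
    linarith
  refine ⟨h1, ?_⟩
  have hu0 : u ≠ 0 := by
    intro h
    rw [h, norm_zero] at h1
    norm_num at h1
  have h4 : ((‖u‖ : ℝ) : ℂ) / u - 1 = (((‖u‖ : ℝ) : ℂ) - u) / u := by
    field_simp
  rw [h4, norm_div]
  have h5 : ‖((‖u‖ : ℝ) : ℂ) - u‖ ≤ 2 * ‖u - 1‖ := by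
    have h6 : ((‖u‖ : ℝ) : ℂ) - u = (((‖u‖ - 1 : ℝ)) : ℂ) - (u - 1) := by
      push_cast
      ring
    rw [h6]
    have h7 : ‖(((‖u‖ - 1 : ℝ)) : ℂ)‖ ≤ ‖u - 1‖ := by
      rw [Complex.norm_real, Real.norm_eq_abs]
      have := abs_norm_sub_norm_le u 1
      rwa [norm_one] at this
    calc ‖(((‖u‖ - 1 : ℝ)) : ℂ) - (u - 1)‖ ≤ ‖(((‖u‖ - 1 : ℝ)) : ℂ)‖ + ‖u - 1‖ := norm_sub_le _ _
      _ ≤ 2 * ‖u - 1‖ := by linarith
  rw [div_le_iff₀ (by linarith)]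
  calc ‖((‖u‖ : ℝ) : ℂ) - u‖ ≤ 2 * ‖u - 1‖ := h5
    _ = 4 * ‖u - 1‖ * (1 / 2) := by ring
    _ ≤ 4 * ‖u - 1‖ * ‖u‖ := by
        apply mul_le_mul_of_nonneg_left h1
        positivity

/-- the normalised function at infinity -/
def FPP_U (Pf : Finset ℂ) (N : Polynomial ℂ) (w : ℂ) : ℂ :=
  N.reverse.eval w / (N.leadingCoeff * ∏ p ∈ Pf, (1 - p * w) ^ 2)

theorem FPP_U0 (Pf : Finset ℂ) (N : Polynomial ℂ) (hN : N ≠ 0) : FPP_U Pf N 0 = 1 := by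
  have h1 : N.leadingCoeff ≠ 0 := Polynomial.leadingCoeff_ne_zero.2 hN
  unfold FPP_U
  rw [← Polynomial.coeff_zero_eq_eval_zero, Polynomial.coeff_zero_reverse]
  simp [h1]

theorem FPP_Ud (Pf : Finset ℂ) (N : Polynomial ℂ) (hN : N ≠ 0) :
    DifferentiableAt ℂ (FPP_U Pf N) 0 := by
  have h1 : N.leadingCoeff ≠ 0 := Polynomial.leadingCoeff_ne_zero.2 hN
  unfold FPP_U
  apply DifferentiableAt.div
  · exact (Polynomial.differentiable _).differentiableAt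
  · apply DifferentiableAt.const_mul
    apply DifferentiableAt.fun_finsetProd
    intro p _
    fun_prop
  · simp [h1]

theorem FPP_bd (Pf : Finset ℂ) (N : Polynomial ℂ) (hN : N ≠ 0) :
    ∃ C δ : ℝ, 0 < C ∧ 0 < δ ∧ ∀ w : ℂ, ‖w‖ < δ → ‖FPP_U Pf N w - 1‖ ≤ C * ‖w‖ := by
  have h1 := (FPP_Ud Pf N hN).isBigO_sub
  obtain ⟨C, hC, hb⟩ := h1.exists_pos
  rw [Asymptotics.isBigOWith_iff] at hb
  obtain ⟨δ, hδ, hb'⟩ := Metric.eventually_nhds_iff.1 hb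
  refine ⟨C, δ, hC, hδ, fun w hw => ?_⟩
  have h2 := hb' (y := w) (by rwa [dist_zero_right])
  rw [FPP_U0 Pf N hN, sub_zero] at h2
  exact h2

theorem FPP_eq (Pf : Finset ℂ) (N : Polynomial ℂ) (hN : N ≠ 0) (x : ℂ) (hx : x ≠ 0) (d : ℕ)
    (hd : N.natDegree = 2 * Pf.card + d) :
    N.eval x / ∏ p ∈ Pf, (x - p) ^ 2 = N.leadingCoeff * x ^ d * FPP_U Pf N x⁻¹ := by
  have h1 : N.leadingCoeff ≠ 0 := Polynomial.leadingCoeff_ne_zero.2 hN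
  have hinv : Invertible x := invertibleOfNonzero hx
  have h2 : N.reverse.eval x⁻¹ * x ^ N.natDegree = N.eval x := by
    have h3 := Polynomial.eval₂_reverse_mul_pow (RingHom.id ℂ) x N
    rw [invOf_eq_inv] at h3
    exact h3
  have h4 : ∏ p ∈ Pf, (x - p) ^ 2 = x ^ (2 * Pf.card) * ∏ p ∈ Pf, (1 - p * x⁻¹) ^ 2 := by
    rw [pow_mul, ← Finset.prod_const, ← Finset.prod_mul_distrib]
    apply Finset.prod_congr rfl
    intro p _
    rw [← mul_pow]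
    congr 1
    field_simp
  unfold FPP_U
  rw [← h2, h4, hd, pow_add]
  have h5 : x ^ (2 * Pf.card) ≠ 0 := pow_ne_zero _ hx
  have h6 : x ^ d ≠ 0 := pow_ne_zero _ hx
  by_cases h7 : ∏ p ∈ Pf, (1 - p * x⁻¹) ^ 2 = 0
  · rw [h7]
    simp
  · field_simp

theorem FPP : FPP_stmt := by
  intro Pf N B d hN hd hB
  obtain ⟨C, δ, hC, hδ, hU⟩ := FPP_bd Pf N hN
  have h1 : N.leadingCoeff ≠ 0 := Polynomial.leadingCoeff_ne_zero.2 hN
  have hl : 0 < ‖N.leadingCoeff‖ := norm_pos_iff.2 h1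
  refine ⟨((‖N.leadingCoeff‖ : ℝ) : ℂ) / N.leadingCoeff, 4 * C,
    1 + 2 / δ + 2 * C + ∑ p ∈ Pf, ‖p‖, ‖N.leadingCoeff‖ / 2, ?_, ?_, by positivity, ?_⟩
  · rw [norm_div, Complex.norm_real, norm_norm]
    exact div_self (norm_ne_zero_iff.2 h1)
  · have := Finset.sum_nonneg (fun p (_ : p ∈ Pf) => norm_nonneg p)
    positivity
  · intro x hx
    have hS : ∀ p ∈ Pf, ‖p‖ ≤ ∑ p ∈ Pf, ‖p‖ :=
      fun p hp => Finset.single_le_sum (fun p (_ : p ∈ Pf) => norm_nonneg p) hp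
    have hS0 : 0 ≤ ∑ p ∈ Pf, ‖p‖ := Finset.sum_nonneg (fun p (_ : p ∈ Pf) => norm_nonneg p)
    have hd2 : 0 < 2 / δ := by positivity
    have hx1 : 0 < ‖x‖ := by linarith
    have hx0 : x ≠ 0 := norm_pos_iff.1 hx1
    have hxP : x ∉ Pf := by
      intro hxP
      have := hS x hxP
      linarith
    have hw : ‖x⁻¹‖ < δ := by
      rw [norm_inv]
      have h2 : 2 / δ < ‖x‖ := by linarith
      rw [inv_lt_comm₀ hx1 hδ]
      have h3 : δ⁻¹ ≤ 2 / δ := by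
        rw [div_eq_mul_inv]
        have : 0 < δ⁻¹ := by positivity
        linarith
      linarith
    have hUx := hU x⁻¹ hw
    have hC2 : C * ‖x⁻¹‖ ≤ 1 / 2 := by
      rw [norm_inv, ← div_eq_mul_inv, div_le_iff₀ hx1]
      linarith
    set u : ℂ := FPP_U Pf N x⁻¹ with hu
    obtain ⟨hu2, hph⟩ := FPP_phase u (hUx.trans hC2)
    have hBx : B x = N.leadingCoeff * x ^ d * u := by
      rw [hB x hxP, hu]
      exact FPP_eq Pf N hN x hx0 d hd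
    have hu0 : u ≠ 0 := by
      intro h
      rw [h, norm_zero] at hu2
      norm_num at hu2
    have hnx : ((‖x‖ : ℝ) : ℂ) ≠ 0 := by exact_mod_cast hx1.ne'
    have hnl : ((‖N.leadingCoeff‖ : ℝ) : ℂ) ≠ 0 := by
      exact_mod_cast (norm_ne_zero_iff.2 h1)
    have hconj : (starRingEnd ℂ) x / (‖x‖ : ℝ) = ((‖x‖ : ℝ) : ℂ) / x := by
      rw [div_eq_div_iff hnx hx0, ← Complex.normSq_eq_conj_mul_self, Complex.normSq_eq_norm_sq]
      push_cast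
      ring
    constructor
    · have h3 : ((‖B x‖ : ℝ) : ℂ) / B x = ((‖N.leadingCoeff‖ : ℝ) : ℂ) / N.leadingCoeff *
          ((starRingEnd ℂ) x / (‖x‖ : ℝ)) ^ d * (((‖u‖ : ℝ) : ℂ) / u) := by
        rw [hBx, norm_mul, norm_mul, norm_pow, hconj]
        push_cast
        have h6 : x ^ d ≠ 0 := pow_ne_zero _ hx0
        rw [div_pow]
        field_simp
      rw [h3]
      have h4 : ((‖N.leadingCoeff‖ : ℝ) : ℂ) / N.leadingCoeff *
          ((starRingEnd ℂ) x / (‖x‖ : ℝ)) ^ d * (((‖u‖ : ℝ) : ℂ) / u) -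
          ((‖N.leadingCoeff‖ : ℝ) : ℂ) / N.leadingCoeff * ((starRingEnd ℂ) x / (‖x‖ : ℝ)) ^ d =
          ((‖N.leadingCoeff‖ : ℝ) : ℂ) / N.leadingCoeff *
          ((starRingEnd ℂ) x / (‖x‖ : ℝ)) ^ d * (((‖u‖ : ℝ) : ℂ) / u - 1) := by ring
      rw [h4, norm_mul, norm_mul, norm_pow, norm_div, norm_div, Complex.norm_real, norm_norm,
        Complex.norm_real, norm_norm, div_self (norm_ne_zero_iff.2 h1), RCLike.norm_conj,
        div_self hx1.ne', one_pow, one_mul, one_mul]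
      calc ‖((‖u‖ : ℝ) : ℂ) / u - 1‖ ≤ 4 * ‖u - 1‖ := hph
        _ ≤ 4 * (C * ‖x⁻¹‖) := by linarith
        _ = 4 * C / ‖x‖ := by rw [norm_inv]; ring
    · rw [hBx, norm_mul, norm_mul, norm_pow]
      have h7 : 0 ≤ ‖N.leadingCoeff‖ * ‖x‖ ^ d := by positivity
      calc ‖N.leadingCoeff‖ / 2 * ‖x‖ ^ d = ‖N.leadingCoeff‖ * ‖x‖ ^ d * (1 / 2) := by ring
        _ ≤ ‖N.leadingCoeff‖ * ‖x‖ ^ d * ‖u‖ := mul_le_mul_of_nonneg_left hu2 h7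

end XPE
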